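import Pool.Agent.Q259.NCSign.Coeff

/-!
# MP_eadf0f_ag : the conjecture `C_NC(𝒜)` does not depend on the field of coefficients, nor on the
cohomology theory

`C` is a `ℚ`-linear rigid symmetric monoidal category in which the endomorphisms of the unit object
are the rational numbers, for example the category `NChow(k)_ℚ` of noncommutative Chow motives of
saturated dg categories, with a symmetric monoidal functor `R` to finite dimensional super vector
spaces over a field `K`, for example periodic cyclic homology `HP^±` (`K = k`, a field of
characteristic zero).

Let `F` be a subfield of `K`.  Noncommutative correspondences with coefficients in `F` act on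
`R(M)`.  `CPlusIn R F M` says that the even Kunneth projector is given by such a correspondence.
For `R = HP^±`, `K = k` this is the conjecture `C_NC` with coefficients in a subfield `F` of `k`;
for coefficients in an extension `F` of `k` one takes `R = HP^± ⊗_k F`, `K = F`.

We prove that for every object `M` the truth of this statement does not depend on `F`, and
not even on the realisation: `R'` may be another realisation over another field `K'` (for instance
topological `K`-theory with rational coefficients if `k` is a field of complex numbers) for which
the even part of `M` has the same dimension.
-/

set_option autoImplicit false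

open CategoryTheory Limits MonoidalCategory

namespace Pool.Agent.Results.MP_eadf0f_ag.CoefficientField

open Pool.Agent.Y112.SR Pool.Agent.Q259.NCSign

universe v u w w'

/-- The dimension of the even part of the realisation of `M`. -/
noncomputable def evenDim {C : Type u} [Category.{v} C] [Preadditive C] [MonoidalCategory C]
    [SymmetricCategory C] {K : Type w} [Field K] (R : SuperRealisation C K) (M : C) : ℕ :=
  Module.finrank K (LinearMap.ker (sgn R M - 1))

/-- The algebraicity of the even Kunneth projector of `M` for the realisation `R` with
coefficients in `F` is equivalent to the same statement for `R'` and `F'`. -/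
theorem result {C : Type u} [Category.{v} C] [Preadditive C] [Linear ℚ C] [MonoidalCategory C]
    [SymmetricCategory C] [RightRigidCategory C]
    (hunit : ∀ c : 𝟙_ C ⟶ 𝟙_ C, ∃ q : ℚ, c = q • 𝟙 (𝟙_ C))
    {K : Type w} [Field K] (R : SuperRealisation C K)
    {K' : Type w'} [Field K'] (R' : SuperRealisation C K')
    (F : Subfield K) (F' : Subfield K') (M : C) (hdim : evenDim R M = evenDim R' M) :
    CPlusIn R F M ↔ CPlusIn R' F' M := by
  have h1 : R.CPlus M ↔ TracePowers R M := (cplus_tfae R hunit M).out 0 4
  have h2 : R'.CPlus M ↔ TracePowers R' M := (cplus_tfae R' hunit M).out 0 4
  have h : Module.finrank K (LinearMap.ker (sgn R M - 1)) =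
      Module.finrank K' (LinearMap.ker (sgn R' M - 1)) := hdim
  rw [in_iff R hunit, in_iff R' hunit, h1, h2]
  unfold TracePowers
  rw [h]

end Pool.Agent.Results.MP_eadf0f_ag.CoefficientField
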