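import Pool.Agent.Q154.NS.Dom

/-!
# The sign conjecture: it is enough to dominate the even part, or to dominate the odd part

`C` is a `ℚ`-linear rigid symmetric monoidal category with `End(1) = ℚ` and `R` a symmetric
monoidal additive functor to finite dimensional super vector spaces over a field `K`, for example
the category of noncommutative Chow motives with periodic cyclic homology.
-/

set_option autoImplicit false

open CategoryTheory Limits MonoidalCategory

namespace Pool.Agent.Results.MP_eadf0f_ag.DominatedParity

open Pool.Agent.Y112.SR Pool.Agent.Q259.NCSign Pool.Agent.Q154.NS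

universe v u w

/-- A vector `x` of `R(M)` is *dominated* by a class `S` of objects when it is a `K`-linear
combination of vectors `R(f ≫ g) x` with `f : M ⟶ N`, `g : N ⟶ M` and `N` in `S`.

1. Let the even projector of `R(N)` be algebraic for all `N` in `S`. If all even vectors of `R(M)`
are dominated by `S`, or if all odd vectors of `R(M)` are, then the even projector of `R(M)` is
algebraic.
2. The even projector of `R(M)` is algebraic if and only if the even vectors of `R(M)` are dominated
by the objects with algebraic even projector, and if and only if the odd ones are.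
3. Let `N j` be finitely many numerical direct summands of `M`, orthogonal modulo numerically
trivial morphisms, and let each `N j` have an algebraic even projector for a realisation `R'` over
a second field. If the even dimensions of the `N j` have the sum `dim R(M)⁺`, or the odd ones have
the sum `dim R(M)⁻`, then the even projector of `R(M)` is algebraic. -/
theorem result {C : Type u} [Category.{v} C] [Preadditive C] [Linear ℚ C] [MonoidalCategory C]
    [SymmetricCategory C] [RightRigidCategory C]
    (hunit : ∀ c : 𝟙_ C ⟶ 𝟙_ C, ∃ q : ℚ, c = q • 𝟙 _)
    {K : Type w} [Field K] (R : SuperRealisation C K) (M : C) :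
    (∀ S : C → Prop, (∀ N, S N → R.CPlus N) →
      ((∀ x, sgn R M x = x → Dominated R S M x) ∨ (∀ x, sgn R M x = -x → Dominated R S M x)) →
      R.CPlus M) ∧
    (R.CPlus M ↔ ∀ x, sgn R M x = x → Dominated R R.CPlus M x) ∧
    (R.CPlus M ↔ ∀ x, sgn R M x = -x → Dominated R R.CPlus M x) ∧
    ∀ {K' : Type w} [Field K'] (R' : SuperRealisation C K') (k : ℕ) (N : Fin k → C)
      (i : ∀ j, N j ⟶ M) (r : ∀ j, M ⟶ N j), NumSummands M N i r → (∀ j, R'.CPlus (N j)) →
      (∑ j, evd R' (N j) = evd R M ∨ ∑ j, odd R' (N j) = odd R M) → R.CPlus M := by
  have hself : R.CPlus M → ∀ x, Dominated R R.CPlus M x := by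
    intro h x
    apply Submodule.subset_span
    refine ⟨M, 𝟙 M, 𝟙 M, h, ?_⟩
    rw [Category.comp_id, R.H.map_id]
    rfl
  refine ⟨fun S hS h => ?_, ⟨fun h x _ => hself h x, fun h => ?_⟩,
    ⟨fun h x _ => hself h x, fun h => ?_⟩, fun R' k N i r h hC hd => ?_⟩
  · rcases h with h | h
    · exact cplus_of_even R hunit hS h
    · exact cplus_of_odd R hunit hS h
  · exact cplus_of_even R hunit (fun N hN => hN) h
  · exact cplus_of_odd R hunit (fun N hN => hN) h
  · exact cplus_of_sum R hunit R' h hC hd

end Pool.Agent.Results.MP_eadf0f_ag.DominatedParity
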