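import Pool.Agent.Q154.NS.Exist

/-!
# The sign conjecture and the indecomposable summands of the numerical motive

`C` is a `ℚ`-linear rigid symmetric monoidal category with `End(1) = ℚ` and `R` a symmetric
monoidal additive functor to finite dimensional super vector spaces over a field `K`, for example
the category of noncommutative Chow motives with periodic cyclic homology.
-/

set_option autoImplicit false

open CategoryTheory Limits MonoidalCategory

namespace Pool.Agent.Results.MP_eadf0f_ag.SimpleConstituents

open Pool.Agent.Y112.SR Pool.Agent.Q259.NCSign Pool.Agent.Q154.NS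

universe v u w

/-- Every object `M` has a decomposition of its numerical motive into indecomposable direct
summands. For every decomposition `e` of the numerical motive of `M`, the traces of the `e i` are
integers `χ i`; every partial sum of the `χ i` is between `-dim R(M)⁻` and `dim R(M)⁺`; the sum of
the `|χ i|` is at most `dim R(M)`; if it is equal to `dim R(M)` then the even projector of `R(M)` is
algebraic; and if the direct summands are indecomposable, then the even projector of `R(M)` is
algebraic if and only if the sum of the `|χ i|` is equal to `dim R(M)`. -/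
theorem result {C : Type u} [Category.{v} C] [Preadditive C] [Linear ℚ C] [MonoidalCategory C]
    [SymmetricCategory C] [RightRigidCategory C]
    (hunit : ∀ c : 𝟙_ C ⟶ 𝟙_ C, ∃ q : ℚ, c = q • 𝟙 _)
    {K : Type w} [Field K] (R : SuperRealisation C K) (M : C) :
    (∃ (n : ℕ) (e : Fin n → (M ⟶ M)), NumDecomp M e ∧ ∀ i, NumIndec (e i)) ∧
    ∀ (n : ℕ) (e : Fin n → (M ⟶ M)), NumDecomp M e →
      ∃ χ : Fin n → ℤ, (∀ i, ctr (e i) = (χ i : ℚ) • 𝟙 _) ∧
        (∀ s : Finset (Fin n), ∑ i ∈ s, χ i ≤ (evd R M : ℤ) ∧ -(odd R M : ℤ) ≤ ∑ i ∈ s, χ i) ∧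
        ∑ i, |χ i| ≤ (Module.finrank K (R.H.obj M) : ℤ) ∧
        (∑ i, |χ i| = (Module.finrank K (R.H.obj M) : ℤ) → R.CPlus M) ∧
        ((∀ i, NumIndec (e i)) →
          (R.CPlus M ↔ ∑ i, |χ i| = (Module.finrank K (R.H.obj M) : ℤ))) := by
  refine ⟨exists_dec R hunit M, fun n e he => ?_⟩
  obtain ⟨χ, h1, h2, h3⟩ := dec_abs R hunit he
  obtain ⟨χ', h4, h5⟩ := dec_upper R hunit he
  have hK := R_charZero R
  have hχ : χ' = χ := by
    funext i
    have a1 := (ctr_eq_iff R hunit (e i) _).1 (h1 i)
    have a2 := (ctr_eq_iff R hunit (e i) _).1 (h4 i)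
    rw [a1] at a2
    exact_mod_cast a2.symm
  subst hχ
  exact ⟨χ', h1, fun s => ⟨(h5 s).1, (h5 s).2.1⟩, h2, h3,
    fun hi => ⟨fun hC => dec_eq R hunit he hi hC h1, h3⟩⟩

end Pool.Agent.Results.MP_eadf0f_ag.SimpleConstituents
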