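import Pool.Agent.Q73.ZD.Main

/-!
# MP_eadf0f_ag : the noncommutative Künneth conjecture and zeta functions of correspondences

`C` is a `ℚ`-linear rigid symmetric monoidal category in which the endomorphisms of the unit object
are the rational numbers, with a symmetric monoidal additive functor `R` to finite dimensional super
vector spaces over a field `K`; for instance the category of noncommutative Chow motives over a
field `k` of characteristic zero with periodic cyclic homology.

To an endomorphism `f` of an object `M` belongs its zeta function `exp (∑ tr (f ^ m) t ^ m / m)`,
a rational function which only depends on the rational numbers `tr (f ^ m)`, the traces computed in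
`C` (intersection numbers; only `f` modulo numerical equivalence matters).  Its degree is the
number of its zeros plus the number of its poles.

We show that the degree of the zeta function of every endomorphism of `M` is at most the dimension
of `R(M)`, and that the projector to the even part of `R(M)` comes from an endomorphism of `M` if and
only if the zeta function of ONE endomorphism of `M` has degree equal to the dimension of `R(M)`.

Proof. Let `ζ_f = A / B` in lowest terms. Polynomials in `T = R(f)` give orthogonal projectors
`e₁`, `e₂` with supertraces `deg B` and `- deg A`. Comparing with the dimensions of the even and odd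
parts of their images gives the bound, and in the case of equality `e₁` is the even projector. It is
a `K`-linear combination of powers of `f`, which is enough by the criterion of
`MP_8f22fa_ag.Criteria`. Conversely the zeta function of `1 + π₊` is
`(1 - t) ^ q / (1 - 2 t) ^ p`, where `p` and `q` are the dimensions of the two parts.
-/

set_option autoImplicit false

open CategoryTheory Limits MonoidalCategory Polynomial

namespace Pool.Agent.Results.MP_eadf0f_ag.ZetaFunctions

open Pool.Agent.Y112.SR Pool.Agent.Q259.NCSign Pool.Agent.Q73.ZD

universe v u w

/-- **The Künneth conjecture and the degrees of zeta functions.** -/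
theorem result {C : Type u} [Category.{v} C] [Preadditive C] [Linear ℚ C] [MonoidalCategory C]
    [SymmetricCategory C] [RightRigidCategory C] {K : Type w} [Field K]
    (R : SuperRealisation C K) (hunit : ∀ c : 𝟙_ C ⟶ 𝟙_ C, ∃ q : ℚ, c = q • 𝟙 (𝟙_ C)) (M : C) :
    (∀ f : End M, ZetaBound R f) ∧ (∀ f : End M, FullZeta R f → EvenIsPolynomial R f) ∧
    (R.CPlus M ↔ ∃ f : End M, FullZeta R f) := by
  refine ⟨fun f A B h => (zeta_bound (R := R) h).1,
    fun f ⟨A, B, h, he⟩ => (zeta_bound (R := R) h).2 he, fun h => ?_, fun ⟨f, A, B, h, he⟩ =>
    cplus_of_zeta hunit h he⟩
  obtain ⟨f, A, B, h1, h2⟩ := zeta_of_cplus hunit h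
  exact ⟨f, A, B, h1, h2⟩

end Pool.Agent.Results.MP_eadf0f_ag.ZetaFunctions
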